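import Mathlib

set_option autoImplicit false

namespace Pool.Agent.Results.MP_2869d0_nt.QOneFull

open Finset

/-! ### the products `B_j(k) = C(k,j) C(k+j,j)` -/

/-- `C(k,j) C(k+j,j)` -/
def B (j k : ℕ) : ℚ := (k.choose j : ℚ) * ((k + j).choose j : ℚ)

lemma choose_succ_mul (n k : ℕ) : ((n + 1).choose k : ℚ) * ((n : ℚ) + 1 - k) = ((n : ℚ) + 1) * (n.choose k : ℚ) := by
  rcases le_or_gt k (n + 1) with h | h
  · have h1 := Nat.choose_mul_succ_eq n k
    have h2 : ((n.choose k * (n + 1) : ℕ) : ℚ) = (((n + 1).choose k * (n + 1 - k) : ℕ) : ℚ) := by rw [h1]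
    push_cast [Nat.cast_sub h] at h2
    linarith
  · rw [Nat.choose_eq_zero_of_lt h, Nat.choose_eq_zero_of_lt (by omega)]
    simp

lemma choose_right_succ (n k : ℕ) : (n.choose (k + 1) : ℚ) * ((k : ℚ) + 1) = (n.choose k : ℚ) * ((n : ℚ) - k) := by
  rcases le_or_gt k n with h | h
  · have h1 := Nat.choose_succ_right_eq n k
    have h2 : ((n.choose (k + 1) * (k + 1) : ℕ) : ℚ) = ((n.choose k * (n - k) : ℕ) : ℚ) := by rw [h1]
    push_cast [Nat.cast_sub h] at h2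
    linarith
  · rw [Nat.choose_eq_zero_of_lt h, Nat.choose_eq_zero_of_lt (by omega : n < k + 1)]
    simp

lemma succ_choose_succ (n k : ℕ) : ((n + 1).choose (k + 1) : ℚ) * ((k : ℚ) + 1) = ((n : ℚ) + 1) * (n.choose k : ℚ) := by
  have h1 := Nat.add_one_mul_choose_eq n k
  have h2 : (((n + 1) * n.choose k : ℕ) : ℚ) = (((n + 1).choose (k + 1) * (k + 1) : ℕ) : ℚ) := by rw [h1]
  push_cast at h2
  linarith

lemma B_zero (k : ℕ) : B 0 k = 1 := by simp [B]

lemma B_right (j k : ℕ) : B (j + 1) k * ((j : ℚ) + 1) ^ 2 = B j k * (((k : ℚ) - j) * (k + j + 1)) := by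
  unfold B
  have h1 := choose_right_succ k j
  have h2 := succ_choose_succ (k + j) j
  rw [show k + (j + 1) = k + j + 1 by ring]
  push_cast at h2
  calc ((k.choose (j + 1) : ℚ) * ((k + j + 1).choose (j + 1) : ℚ)) * ((j : ℚ) + 1) ^ 2
      = ((k.choose (j + 1) : ℚ) * ((j : ℚ) + 1)) * (((k + j + 1).choose (j + 1) : ℚ) * ((j : ℚ) + 1)) := by ring
    _ = _ := by rw [h1, h2]; ring

lemma B_up (j k : ℕ) : B j (k + 1) * ((k : ℚ) + 1 - j) = B j k * ((k : ℚ) + 1 + j) := by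
  unfold B
  have h1 := choose_succ_mul k j
  have h2 := choose_succ_mul (k + j) j
  push_cast at h2
  have h3 : ((k : ℚ) + 1) ≠ 0 := by positivity
  rw [show k + 1 + j = k + j + 1 by ring]
  have h4 : ((k + j + 1).choose j : ℚ) = ((k : ℚ) + j + 1) * ((k + j).choose j : ℚ) / (k + 1) := by
    rw [eq_div_iff h3]; linarith
  rw [h4]
  calc ((k + 1).choose j : ℚ) * (((k : ℚ) + j + 1) * ((k + j).choose j : ℚ) / (k + 1)) * ((k : ℚ) + 1 - j)
      = (((k + 1).choose j : ℚ) * ((k : ℚ) + 1 - j)) * (((k : ℚ) + j + 1) * ((k + j).choose j : ℚ) / (k + 1)) := by ring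
    _ = _ := by rw [h1]; field_simp; ring

/-- `∑_{k<n} (2k+1) (-1)^k B_i(k)` -/
lemma sum_B (i n : ℕ) : ∑ k ∈ range n, (2 * (k : ℚ) + 1) * (-1) ^ k * B i k = - ((-1) ^ n * (((n : ℚ) - i) * B i n)) := by
  induction n with
  | zero =>
    rcases Nat.eq_zero_or_pos i with rfl | h
    · simp
    · simp [B, Nat.choose_eq_zero_of_lt h]
  | succ n ih =>
    rw [sum_range_succ, ih, pow_succ]
    have h := B_up i n
    push_cast
    linear_combination (-1 : ℚ) ^ n * (-h)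

lemma n_mul (i n : ℕ) (hn : 1 ≤ n) : ((n : ℚ) - i) * B i n = n * (((n - 1).choose i : ℚ) * ((n + i).choose i : ℚ)) := by
  obtain ⟨m, rfl⟩ : ∃ m, n = m + 1 := ⟨n - 1, by omega⟩
  have h := choose_succ_mul m i
  unfold B
  rw [Nat.add_sub_cancel]
  push_cast
  linear_combination ((m + 1 + i).choose i : ℚ) * h

/-! ### linearisation of the squares -/

/-- `C(i,j)^2 C(2j,i)` -/
def cc (j i : ℕ) : ℚ := (i.choose j : ℚ) ^ 2 * ((2 * j).choose i : ℚ)

lemma cc_rec (j i : ℕ) : ((j : ℚ) + 1) ^ 4 * cc (j + 1) (i + 2) =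
    cc j i * (((i : ℚ) + 1) ^ 2 * (i + 2) ^ 2) +
    cc j (i + 1) * (((i : ℚ) + 2) ^ 2 * ((((i : ℚ) + 2) * (i + 3) - j * (j + 1)) + (((i : ℚ) + 1) * (i + 2) - j * (j + 1)))) +
    cc j (i + 2) * (((i : ℚ) + 2) * (i + 3) - j * (j + 1)) ^ 2 := by
  unfold cc
  have a1 := choose_succ_mul i j
  have a2 := choose_succ_mul (i + 1) j
  have a3 := choose_right_succ (2 * j) i
  have a4 := choose_right_succ (2 * j) (i + 1)
  have a5 := succ_choose_succ (i + 1) j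
  have a6 := succ_choose_succ (2 * j + 1) (i + 1)
  have a7 := succ_choose_succ (2 * j) i
  rw [show i + 1 + 1 = i + 2 by ring] at *
  rw [show 2 * j + 1 + 1 = 2 * (j + 1) by ring] at a6
  push_cast at *
  generalize (i.choose j : ℚ) = a at *
  generalize ((i + 1).choose j : ℚ) = b at *
  generalize ((i + 2).choose j : ℚ) = c at *
  generalize ((2 * j).choose i : ℚ) = u at *
  generalize ((2 * j).choose (i + 1) : ℚ) = v at *
  generalize ((2 * j).choose (i + 2) : ℚ) = w at *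
  generalize ((i + 2).choose (j + 1) : ℚ) = d at *
  generalize ((2 * (j + 1)).choose (i + 2) : ℚ) = e at *
  generalize ((2 * j + 1).choose (i + 1) : ℚ) = f at *
  have i1 : (i : ℚ) + 1 ≠ 0 := by positivity
  have i2 : (i : ℚ) + 2 ≠ 0 := by positivity
  have j1 : (j : ℚ) + 1 ≠ 0 := by positivity
  have ea : a = b * ((i : ℚ) + 1 - j) / (i + 1) := by rw [eq_div_iff i1]; linarith
  have ed : d = ((i : ℚ) + 2) * b / (j + 1) := by rw [eq_div_iff j1]; linarith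
  have ev : v = u * (2 * (j : ℚ) - i) / (i + 1) := by rw [eq_div_iff i1]; linarith
  have ew : w = v * (2 * (j : ℚ) - (i + 1)) / (i + 2) := by rw [eq_div_iff i2]; linarith
  have ef : f = (2 * (j : ℚ) + 1) * u / (i + 1) := by rw [eq_div_iff i1]; linarith
  have ee : e = (2 * (j : ℚ) + 2) * f / (i + 2) := by rw [eq_div_iff i2]; linarith
  have ec : c ^ 2 * w * (((i : ℚ) + 2) * (i + 3) - j * (j + 1)) ^ 2 = ((i : ℚ) + 2) ^ 2 * b ^ 2 * (i + 3 + j) ^ 2 * w := by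
    have : ((i : ℚ) + 2) * (i + 3) - j * (j + 1) = ((i : ℚ) + 2 - j) * (i + 3 + j) := by ring
    rw [this]
    have h : c * ((i : ℚ) + 2 - j) = (i + 2) * b := by linarith
    calc c ^ 2 * w * (((i : ℚ) + 2 - j) * (i + 3 + j)) ^ 2 = (c * ((i : ℚ) + 2 - j)) ^ 2 * (i + 3 + j) ^ 2 * w := by ring
      _ = _ := by rw [h]; ring
  rw [ec, ea, ed, ew, ev, ee, ef]
  field_simp
  ring

lemma cc_zero_of_lt {j i : ℕ} (h : 2 * j < i) : cc j i = 0 := by
  unfold cc; rw [Nat.choose_eq_zero_of_lt h]; simp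

lemma lin (j : ℕ) : ∀ N : ℕ, 2 * j + 1 ≤ N → ∀ k : ℕ, B j k ^ 2 = ∑ i ∈ range N, cc j i * B i k := by
  induction j with
  | zero =>
    intro N hN k
    obtain ⟨M, rfl⟩ : ∃ M, N = M + 1 := ⟨N - 1, by omega⟩
    rw [sum_range_succ', sum_eq_zero (fun i _ => by rw [cc_zero_of_lt (by omega)]; ring)]
    simp [B_zero, cc]
  | succ j ih =>
    intro N' hN' k
    obtain ⟨N, rfl⟩ : ∃ N, N' = N + 2 := ⟨N' - 2, by omega⟩
    have hN : 2 * j + 1 ≤ N := by omega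
    have h0 := ih N hN k
    have j1 : ((j : ℚ) + 1) ^ 4 ≠ 0 := by positivity
    apply mul_left_cancel₀ j1
    have hr := B_right j k
    have e1 : ((j : ℚ) + 1) ^ 4 * B (j + 1) k ^ 2 = B j k ^ 2 * (((k : ℚ) - j) * (k + j + 1)) ^ 2 := by
      calc ((j : ℚ) + 1) ^ 4 * B (j + 1) k ^ 2 = (B (j + 1) k * ((j : ℚ) + 1) ^ 2) ^ 2 := by ring
        _ = _ := by rw [hr]; ring
    set F : ℕ → ℚ := fun i => cc j i * (((i : ℚ) + 1) ^ 2 * (i + 2) ^ 2) * B (i + 2) k with hF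
    set G : ℕ → ℚ := fun i => cc j i * (((i : ℚ) + 1) ^ 2 * ((((i : ℚ) + 1) * (i + 2) - j * (j + 1)) + ((i : ℚ) * (i + 1) - j * (j + 1)))) *
      B (i + 1) k with hG
    set H : ℕ → ℚ := fun i => cc j i * ((i : ℚ) * (i + 1) - j * (j + 1)) ^ 2 * B i k with hH
    have e2 : B j k ^ 2 * (((k : ℚ) - j) * (k + j + 1)) ^ 2 = ∑ i ∈ range N, (F i + G i + H i) := by
      rw [h0, sum_mul]
      refine sum_congr rfl fun i _ => ?_
      have r1 := B_right i k
      have r2 := B_right (i + 1) k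
      rw [show i + 1 + 1 = i + 2 by ring] at r2
      push_cast at r2
      simp only [hF, hG, hH]
      have e3 : B (i + 2) k * (((i : ℚ) + 1) ^ 2 * (i + 2) ^ 2) = B i k * (((k : ℚ) - i) * (k + i + 1)) * (((k : ℚ) - (i + 1)) * (k + (i + 1) + 1)) := by
        calc B (i + 2) k * (((i : ℚ) + 1) ^ 2 * (i + 2) ^ 2) = (B (i + 2) k * ((i : ℚ) + 1 + 1) ^ 2) * (i + 1) ^ 2 := by ring
          _ = B (i + 1) k * ((i : ℚ) + 1) ^ 2 * (((k : ℚ) - (i + 1)) * (k + (i + 1) + 1)) := by rw [r2]; ring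
          _ = _ := by rw [r1]
      linear_combination (-(cc j i)) * e3 - cc j i * ((((i : ℚ) + 1) * (i + 2) - j * (j + 1)) + ((i : ℚ) * (i + 1) - j * (j + 1))) * r1
    have e4 : ∑ i ∈ range (N + 2), cc (j + 1) i * B i k = ∑ i ∈ range N, cc (j + 1) (i + 2) * B (i + 2) k +
        cc (j + 1) 1 * B 1 k + cc (j + 1) 0 * B 0 k := by
      rw [sum_range_succ', sum_range_succ']
    have e5 : ((j : ℚ) + 1) ^ 4 * ∑ i ∈ range N, cc (j + 1) (i + 2) * B (i + 2) k =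
        ∑ i ∈ range N, (F i + G (i + 1) + H (i + 2)) := by
      rw [mul_sum]
      refine sum_congr rfl fun i _ => ?_
      have h := cc_rec j i
      simp only [hF, hG, hH]
      push_cast
      linear_combination B (i + 2) k * h
    have e6 : ∑ i ∈ range N, G (i + 1) = ∑ i ∈ range N, G i - G 0 := by
      have h1 := sum_range_succ' G N
      have h2 := sum_range_succ G N
      have h3 : G N = 0 := by simp only [hG]; rw [cc_zero_of_lt (by omega)]; ring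
      linarith
    have e7 : ∑ i ∈ range N, H (i + 2) = ∑ i ∈ range N, H i - H 0 - H 1 := by
      have h1 := sum_range_succ' H (N + 1)
      have h1' := sum_range_succ' (fun i => H (i + 1)) N
      have h2 := sum_range_succ H (N + 1)
      have h2' := sum_range_succ H N
      have h3 : H N = 0 := by simp only [hH]; rw [cc_zero_of_lt (by omega)]; ring
      have h4 : H (N + 1) = 0 := by simp only [hH]; rw [cc_zero_of_lt (by omega)]; ring
      simp only [zero_add] at h1'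
      have h5 : ∑ i ∈ range N, H (i + 2) = ∑ i ∈ range N, H (i + 1 + 1) := rfl
      linarith
    have e8 : ((j : ℚ) + 1) ^ 4 * (cc (j + 1) 1 * B 1 k + cc (j + 1) 0 * B 0 k) = G 0 + H 0 + H 1 := by
      simp only [hG, hH]
      unfold cc
      rcases j with _ | _ | j
      · simp
      · simp [Nat.choose_eq_zero_of_lt]
      · rw [Nat.choose_eq_zero_of_lt (show 0 < j + 1 + 1 by omega), Nat.choose_eq_zero_of_lt (show 1 < j + 1 + 1 by omega),
          Nat.choose_eq_zero_of_lt (show 0 < j + 1 + 1 + 1 by omega), Nat.choose_eq_zero_of_lt (show 1 < j + 1 + 1 + 1 by omega)]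
        simp
    rw [e1, e2, e4, add_assoc, mul_add, e5, e8, sum_add_distrib, sum_add_distrib, sum_add_distrib, sum_add_distrib, e6, e7]
    ring

/-- the integers `(1/n) ∑_{k<n} (2k+1) (-1)^k B_j(k)^2` -/
def W (j n : ℕ) : ℤ :=
  - ((-1) ^ n * ∑ i ∈ range (2 * j + 1), ((i.choose j : ℤ) ^ 2 * ((2 * j).choose i : ℤ)) * (((n - 1).choose i : ℤ) * ((n + i).choose i : ℤ)))

/-- `∑_{k<n} (2k+1) (-1)^k B_j(k)^2` -/
def X (j n : ℕ) : ℚ := ∑ k ∈ range n, (2 * (k : ℚ) + 1) * (-1) ^ k * B j k ^ 2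

lemma X_W (j n : ℕ) (hn : 1 ≤ n) : X j n = n * (W j n : ℚ) := by
  unfold X W
  have h1 : ∑ k ∈ range n, (2 * (k : ℚ) + 1) * (-1) ^ k * B j k ^ 2 =
      ∑ i ∈ range (2 * j + 1), cc j i * ∑ k ∈ range n, (2 * (k : ℚ) + 1) * (-1) ^ k * B i k := by
    simp only [mul_sum]
    rw [sum_comm]
    refine sum_congr rfl fun k _ => ?_
    rw [lin j (2 * j + 1) le_rfl k, mul_sum]
    exact sum_congr rfl fun i _ => by ring
  rw [h1]
  push_cast
  rw [mul_neg, mul_comm ((-1 : ℚ) ^ n), ← mul_assoc, mul_sum, sum_mul, ← sum_neg_distrib]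
  refine sum_congr rfl fun i _ => ?_
  rw [sum_B, n_mul i n hn]
  unfold cc
  ring

/-! ### the value at `x = 1/4` -/

/-- boundary terms -/
def Y (j n : ℕ) : ℚ := - ((-1) ^ n * ((n : ℚ) * ((n : ℚ) ^ 2 - 3 * ((j : ℚ) + 1) ^ 2)) * (((n : ℚ) - j) * B j n) ^ 2 / ((j : ℚ) + 1) ^ 4)

lemma X_rec (j n : ℕ) : X (j + 1) n = 2 * (2 * (j : ℚ) + 1) / (j + 1) * X j n + Y j n := by
  induction n with
  | zero => simp [X, Y]
  | succ n ih =>
    have h1 : X (j + 1) (n + 1) = X (j + 1) n + (2 * (n : ℚ) + 1) * (-1) ^ n * B (j + 1) n ^ 2 := by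
      unfold X; rw [sum_range_succ]
    have h2 : X j (n + 1) = X j n + (2 * (n : ℚ) + 1) * (-1) ^ n * B j n ^ 2 := by
      unfold X; rw [sum_range_succ]
    rw [h1, h2, ih]
    have r := B_right j n
    have u := B_up j n
    have j1 : (j : ℚ) + 1 ≠ 0 := by positivity
    have er : B (j + 1) n = B j n * (((n : ℚ) - j) * (n + j + 1)) / ((j : ℚ) + 1) ^ 2 := by
      rw [eq_div_iff (by positivity)]; exact r
    unfold Y
    push_cast
    have eu : ((n : ℚ) + 1 - j) * B j (n + 1) = B j n * ((n : ℚ) + 1 + j) := by linarith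
    rw [eu, er, pow_succ]
    field_simp
    ring

lemma X_zero (j n : ℕ) (h : n ≤ j) : X j n = 0 := by
  unfold X
  refine sum_eq_zero fun k hk => ?_
  have := mem_range.mp hk
  unfold B
  rw [Nat.choose_eq_zero_of_lt (by omega)]
  simp

lemma abel (n : ℕ) : ∀ N : ℕ, 2 * (N : ℚ) * (X N n / 4 ^ N) = ∑ j ∈ range N, X j n / 4 ^ j +
    ∑ j ∈ range N, 2 * ((j : ℚ) + 1) * Y j n / 4 ^ (j + 1) := by
  intro N
  induction N with
  | zero => simp
  | succ N ih =>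
    rw [sum_range_succ, sum_range_succ]
    have h := X_rec N n
    have j1 : (N : ℚ) + 1 ≠ 0 := by positivity
    have h4 : (4 : ℚ) ^ N ≠ 0 := by positivity
    rw [h]
    have ih' : ∑ j ∈ range N, X j n / 4 ^ j = 2 * (N : ℚ) * (X N n / 4 ^ N) - ∑ j ∈ range N, 2 * ((j : ℚ) + 1) * Y j n / 4 ^ (j + 1) := by
      linarith
    rw [ih']
    push_cast
    rw [pow_succ]
    field_simp
    ring

/-- the integers in the value at `1/4` -/
def Zt (j n : ℕ) : ℤ :=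
  (n.choose (j + 1) : ℤ) ^ 2 * ((n + j).choose (j + 1) : ℤ) * ((n + j).choose j : ℤ) -
    3 * (n.choose (j + 1) : ℤ) * ((n - 1).choose j : ℤ) * ((n + j).choose j : ℤ) ^ 2

lemma Y_eq (j n : ℕ) (hn : 1 ≤ n) : 2 * ((j : ℚ) + 1) * Y j n = - (2 * (-1) ^ n * (n : ℚ) ^ 2 * (Zt j n : ℚ)) := by
  obtain ⟨m, rfl⟩ : ∃ m, n = m + 1 := ⟨n - 1, by omega⟩
  unfold Y Zt
  rw [n_mul j (m + 1) hn, Nat.add_sub_cancel]
  have h1 := succ_choose_succ m j
  have h2 := choose_right_succ (m + 1 + j) j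
  push_cast at h2
  push_cast
  have j1 : (j : ℚ) + 1 ≠ 0 := by positivity
  have e1 : ((m + 1).choose (j + 1) : ℚ) = ((m : ℚ) + 1) * (m.choose j : ℚ) / (j + 1) := by rw [eq_div_iff j1]; linarith
  have e2 : ((m + 1 + j).choose (j + 1) : ℚ) = ((m + 1 + j).choose j : ℚ) * ((m : ℚ) + 1) / (j + 1) := by
    rw [eq_div_iff j1]; linarith
  rw [e1, e2]
  field_simp

/-- `∑_j W_j(n) 4^{n-j}` is divisible by `n` -/
lemma value (n : ℕ) (hn : 1 ≤ n) : ∑ j ∈ range n, W j n * 4 ^ (n - j) =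
    (n : ℤ) * ∑ j ∈ range n, 2 * (-1) ^ n * Zt j n * 4 ^ (n - (j + 1)) := by
  have h := abel n n
  rw [X_zero n n le_rfl] at h
  have hn0 : (n : ℚ) ≠ 0 := by positivity
  have h1 : ∑ j ∈ range n, X j n / 4 ^ j = ∑ j ∈ range n, 2 * (-1) ^ n * (n : ℚ) ^ 2 * (Zt j n : ℚ) / 4 ^ (j + 1) := by
    have : ∑ j ∈ range n, 2 * ((j : ℚ) + 1) * Y j n / 4 ^ (j + 1) =
        - ∑ j ∈ range n, 2 * (-1) ^ n * (n : ℚ) ^ 2 * (Zt j n : ℚ) / 4 ^ (j + 1) := by
      rw [← sum_neg_distrib]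
      refine sum_congr rfl fun j _ => ?_
      rw [Y_eq j n hn]; ring
    rw [this] at h
    simp only [zero_div, mul_zero] at h
    linarith
  have h2 : ((∑ j ∈ range n, W j n * 4 ^ (n - j) : ℤ) : ℚ) =
      (((n : ℤ) * ∑ j ∈ range n, 2 * (-1) ^ n * Zt j n * 4 ^ (n - (j + 1)) : ℤ) : ℚ) := by
    apply mul_left_cancel₀ hn0
    have e1 : (n : ℚ) * ((∑ j ∈ range n, W j n * 4 ^ (n - j) : ℤ) : ℚ) = 4 ^ n * ∑ j ∈ range n, X j n / 4 ^ j := by
      push_cast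
      rw [mul_sum, mul_sum]
      refine sum_congr rfl fun j hj => ?_
      have hj' := mem_range.mp hj
      rw [X_W j n hn]
      have : (4 : ℚ) ^ n = 4 ^ (n - j) * 4 ^ j := by rw [← pow_add]; congr 1; omega
      rw [this]
      field_simp
    have e2 : (n : ℚ) * (((n : ℤ) * ∑ j ∈ range n, 2 * (-1) ^ n * Zt j n * 4 ^ (n - (j + 1)) : ℤ) : ℚ) =
        4 ^ n * ∑ j ∈ range n, 2 * (-1) ^ n * (n : ℚ) ^ 2 * (Zt j n : ℚ) / 4 ^ (j + 1) := by
      push_cast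
      rw [← mul_assoc, mul_sum, mul_sum]
      refine sum_congr rfl fun j hj => ?_
      have hj' := mem_range.mp hj
      have : (4 : ℚ) ^ n = 4 ^ (n - (j + 1)) * 4 ^ (j + 1) := by rw [← pow_add]; congr 1; omega
      rw [this]
      field_simp
    rw [e1, e2, h1]
  exact_mod_cast h2

/-- `A_k(x) = ∑_{j=0}^{k} C(k,j)^2 C(k+j,j)^2 x^j` -/
def A {R : Type*} [CommRing R] (k : ℕ) (x : R) : R :=
  ∑ j ∈ range (k + 1), (k.choose j : R) ^ 2 * ((k + j).choose j : R) ^ 2 * x ^ j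

/-- as a polynomial identity -/
lemma sum_A {R : Type*} [CommRing R] (n : ℕ) (hn : 1 ≤ n) (x : R) :
    ∑ k ∈ range n, (2 * (k : R) + 1) * (-1) ^ k * A k x = (n : R) * ∑ j ∈ range n, (W j n : R) * x ^ j := by
  have h1 : ∀ k ∈ range n, (2 * (k : R) + 1) * (-1) ^ k * A k x =
      ∑ j ∈ range n, (2 * (k : R) + 1) * (-1) ^ k * ((k.choose j : R) ^ 2 * ((k + j).choose j : R) ^ 2 * x ^ j) := by
    intro k hk
    have hk' := mem_range.mp hk
    unfold A
    rw [mul_sum]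
    refine sum_subset (range_mono (by omega)) fun j _ hj => ?_
    have : k < j := by
      rw [mem_range] at hj; omega
    rw [Nat.choose_eq_zero_of_lt this]
    simp
  rw [sum_congr rfl h1, sum_comm, mul_sum]
  refine sum_congr rfl fun j _ => ?_
  have h2 : ∑ k ∈ range n, (2 * (k : ℤ) + 1) * (-1) ^ k * (((k.choose j : ℤ)) ^ 2 * (((k + j).choose j : ℤ)) ^ 2) = n * W j n := by
    have h := X_W j n hn
    unfold X B at h
    have h3 : ((∑ k ∈ range n, (2 * (k : ℤ) + 1) * (-1) ^ k * (((k.choose j : ℤ)) ^ 2 * (((k + j).choose j : ℤ)) ^ 2) : ℤ) : ℚ) =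
        ((n * W j n : ℤ) : ℚ) := by
      push_cast
      rw [← h]
      exact sum_congr rfl fun k _ => by ring
    exact_mod_cast h3
  have h4 := congrArg (Int.cast : ℤ → R) h2
  push_cast at h4
  calc ∑ k ∈ range n, (2 * (k : R) + 1) * (-1) ^ k * ((k.choose j : R) ^ 2 * ((k + j).choose j : R) ^ 2 * x ^ j)
      = (∑ k ∈ range n, (2 * (k : R) + 1) * (-1) ^ k * ((k.choose j : R) ^ 2 * ((k + j).choose j : R) ^ 2)) * x ^ j := by
        rw [sum_mul]; exact sum_congr rfl fun k _ => by ring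
    _ = _ := by rw [h4]; ring

lemma four_unit (p : ℕ) [hp : Fact p.Prime] (h2 : p ≠ 2) : ‖(4 : ℤ_[p])‖ = 1 := by
  have h3 : ((4 : ℕ) : ℤ_[p]) = 4 := by norm_num
  rw [← h3, PadicInt.norm_natCast_eq_one_iff]
  rw [show 4 = 2 ^ 2 by norm_num]
  exact Nat.Coprime.pow_right 2 ((Nat.coprime_primes hp.out Nat.prime_two).mpr h2)

/-- the inequality in `ℤ_p` -/
lemma core (p : ℕ) [hp : Fact p.Prime] (n : ℕ) (hn : 1 ≤ n) (x : ℤ_[p]) :
    ‖∑ j ∈ range n, (W j n : ℤ_[p]) * x ^ j‖ ≤ max ‖(n : ℤ_[p])‖ ‖4 * x - 1‖ := by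
  by_cases h2 : p = 2
  · -- `4x - 1` is a unit
    have h3 : ‖4 * x - 1‖ = 1 := by
      subst h2
      have h4 : ‖4 * x‖ < 1 := by
        rw [norm_mul]
        have h5 : ‖(4 : ℤ_[2])‖ < 1 := by
          have h6 : ((4 : ℕ) : ℤ_[2]) = 4 := by norm_num
          rw [← h6, PadicInt.norm_natCast_lt_one_iff]
          norm_num
        calc ‖(4 : ℤ_[2])‖ * ‖x‖ ≤ ‖(4 : ℤ_[2])‖ * 1 := mul_le_mul_of_nonneg_left (PadicInt.norm_le_one _) (norm_nonneg _)
          _ < 1 := by rwa [mul_one]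
      have h5 : ‖4 * x‖ ≠ ‖(-1 : ℤ_[2])‖ := by rw [norm_neg, norm_one]; exact h4.ne
      rw [sub_eq_add_neg, PadicInt.norm_add_eq_max_of_ne h5, norm_neg, norm_one, max_eq_right h4.le]
    rw [h3]
    exact (PadicInt.norm_le_one _).trans (le_max_right _ _)
  · have h4 := four_unit p h2
    have hu : IsUnit (4 : ℤ_[p]) := PadicInt.isUnit_iff.mpr h4
    obtain ⟨u, hu⟩ := hu
    set y : ℤ_[p] := ((u⁻¹ : ℤ_[p]ˣ) : ℤ_[p]) with hy
    have hy1 : 4 * y = 1 := by rw [hy, ← hu]; exact u.mul_inv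
    set P : Polynomial ℤ_[p] := ∑ j ∈ range n, Polynomial.C (W j n : ℤ_[p]) * Polynomial.X ^ j with hP
    have hev : ∀ z : ℤ_[p], P.eval z = ∑ j ∈ range n, (W j n : ℤ_[p]) * z ^ j := by
      intro z
      rw [hP, Polynomial.eval_finsetSum]
      exact sum_congr rfl fun j _ => by simp
    have h5 : ‖P.eval x - P.eval y‖ ≤ ‖4 * x - 1‖ := by
      obtain ⟨c, hc⟩ := Polynomial.sub_dvd_eval_sub x y P
      rw [hc, norm_mul]
      have e : 4 * x - 1 = 4 * (x - y) := by rw [mul_sub, hy1]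
      rw [e, norm_mul, h4, one_mul]
      exact mul_le_of_le_one_right (norm_nonneg _) (PadicInt.norm_le_one _)
    have h6 : ‖P.eval y‖ ≤ ‖(n : ℤ_[p])‖ := by
      have h7 : (4 : ℤ_[p]) ^ n * P.eval y = (n : ℤ_[p]) * ((∑ j ∈ range n, 2 * (-1) ^ n * Zt j n * 4 ^ (n - (j + 1)) : ℤ) : ℤ_[p]) := by
        have h8 := congrArg (Int.cast : ℤ → ℤ_[p]) (value n hn)
        rw [Int.cast_mul, Int.cast_natCast] at h8
        rw [← h8, hev, mul_sum]
        push_cast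
        refine sum_congr rfl fun j hj => ?_
        have hj' := mem_range.mp hj
        have e1 : (4 : ℤ_[p]) ^ n = 4 ^ (n - j) * 4 ^ j := by rw [← pow_add]; congr 1; omega
        have e2 : (4 : ℤ_[p]) ^ j * y ^ j = 1 := by rw [← mul_pow, hy1, one_pow]
        rw [e1]
        linear_combination (W j n : ℤ_[p]) * 4 ^ (n - j) * e2
      have h9 : ‖P.eval y‖ = ‖(4 : ℤ_[p]) ^ n * P.eval y‖ := by
        rw [norm_mul, norm_pow, h4, one_pow, one_mul]
      rw [h9, h7, norm_mul]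
      exact mul_le_of_le_one_right (norm_nonneg _) (PadicInt.norm_le_one _)
    rw [← hev x]
    have h10 : P.eval x = P.eval y + (P.eval x - P.eval y) := by ring
    rw [h10]
    refine (PadicInt.nonarchimedean _ _).trans ?_
    exact max_le_max h6 h5

/-- `Q1`: for every prime `p`, `n ≥ 1` and `x ∈ ℤ_p`,
`ν_p((1/n) ∑_{k<n} (2k+1) (-1)^k A_k(x)) ≥ min (ν_p(n), ν_p(4x-1))`, in terms of the norm `‖z‖ = p^(-ν_p(z))`. -/
theorem result (p : ℕ) [Fact p.Prime] (n : ℕ) (hn : 1 ≤ n) (x : ℤ_[p]) :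
    ‖(1 / (n : ℚ_[p])) * ∑ k ∈ range n, (2 * (k : ℚ_[p]) + 1) * (-1) ^ k * A k (x : ℚ_[p])‖ ≤
      max ‖(n : ℚ_[p])‖ ‖4 * (x : ℚ_[p]) - 1‖ := by
  have hn0 : (n : ℚ_[p]) ≠ 0 := by exact_mod_cast (by omega : n ≠ 0)
  rw [sum_A n hn (x : ℚ_[p]), ← mul_assoc, one_div_mul_cancel hn0, one_mul]
  have h := core p n hn x
  have e1 : ((∑ j ∈ range n, (W j n : ℤ_[p]) * x ^ j : ℤ_[p]) : ℚ_[p]) = ∑ j ∈ range n, (W j n : ℚ_[p]) * (x : ℚ_[p]) ^ j := by
    rw [PadicInt.coe_sum]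
    exact sum_congr rfl fun j _ => by push_cast; rfl
  have e2 : ((4 * x - 1 : ℤ_[p]) : ℚ_[p]) = 4 * (x : ℚ_[p]) - 1 := by push_cast; rfl
  have e3 : ‖(n : ℚ_[p])‖ = ‖(n : ℤ_[p])‖ := by
    rw [PadicInt.norm_def]; simp
  rw [← e1, ← e2, e3, ← PadicInt.norm_def, ← PadicInt.norm_def]
  exact h

end Pool.Agent.Results.MP_2869d0_nt.QOneFull
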